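import Pool.Agent.H29.KPP.Final

/-!
# MP_b84e2d_an: asymptotic local planarity is stable under bounded perturbations

Let `U, U' ⊆ ℝ^N` satisfy condition (H), with `d_H(U, U') < ∞`. If the solution `u` of the
Fisher-KPP equation starting from `1_U` is asymptotically locally planar, then so is the solution
`u'` starting from `1_{U'}`.

Proof.
* `T_s u(t-s) ≤ u(t) ≤ e^{Ls} T_s u(t-s)` with the heat semigroup `T`; from (H) and
  `d_H(U, U') < ∞` we get `u'(t+1) ≥ η u(t)` and `u(t+1) ≥ η u'(t)` for some `η > 0`.
* Along `t_n → ∞` and `x_n` pass to entire limits `a` (of `u'`) and `v` (of `u`). All the `v(t,·)`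
  are planar, with a common direction `e`, because planarity propagates forward in time and the
  sphere is compact.
* Fix `s > 0` and `h ⊥ e`, and let `ϑ` be the largest number in `[0,1]` with
  `a(t,x) ≥ ϑ a(t-s,x+h)` for all `(t,x)`. If `ϑ < 1`, then near-equality at a point `P_0 = (t,x)`
  propagates along the chain `P_k = (t-ks,x+kh)` (comparison principle for
  `a(t,x) - ϑ a(t-s,x+h)` and kernel Harnack inequality), so `a(P_k)` grows geometrically. This
  contradicts the bound `a(P_k) ≤ C k^{N/2} a(P_0)`, which follows from the comparison with the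
  planar function `v`. Hence `a(t,x) ≥ a(t-s,x+h)`, and `s → 0` gives `a(t,x) = a(t,x+h)`.
* The profile is `C²` by the Duhamel formula.
-/

open MeasureTheory Set Metric Pool.Agent.H29.KPP

namespace Pool.Agent.Results.MP_b84e2d_an.Stability

/-- **Theorem.** Let `f` be a Fisher-KPP nonlinearity and let `U, U' ⊆ ℝ^N` be (Lebesgue) measurable
sets, both satisfying (H), with `d_H(U, U') < ∞`. If the solution starting from `1_U` is
asymptotically locally planar, then so is the solution starting from `1_{U'}`. -/
theorem result (N : ℕ) (f : ℝ → ℝ) (hf : IsFisherKPP f) (U U' : Set (RN N))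
    (hU : NullMeasurableSet U) (hU' : NullMeasurableSet U') (hH : CondH U) (hH' : CondH U')
    (hd : hausdorffEDist U U' < ⊤) (u u' : ℝ → RN N → ℝ) (hu : IsSolution f U u)
    (hu' : IsSolution f U' u') (hplanar : IsAsympLocallyPlanar u) : IsAsympLocallyPlanar u' :=
  main hf hU hU' hH hH' hd hu hu' hplanar

end Pool.Agent.Results.MP_b84e2d_an.Stability
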